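import Mathlib

set_option autoImplicit false

namespace Pool.Agent.H.MP_bd622f_lc

abbrev Wd := List (Fin 2)

def XL : List Wd :=
  [[0], [0,0,0,1,0], [0,0,0,1,0,0,0,1], [0,0,0,1,0,0,1,0,0,1], [0,0,0,1,1,0,1], [0,0,0,1,1,0,1,0,0,1],
  [0,0,0,1,1,1], [0,0,0,1,1,1,0,0,1], [0,0,1,0,0,1], [1,0,1], [1,0,1,0,0,1,0], [1,0,1,0,0,1,0,0,0,1],
  [1,0,1,0,0,1,0,0,1,0,0,1], [1,0,1,0,0,1,1,0,1], [1,0,1,0,0,1,1,0,1,0,0,1], [1,0,1,0,0,1,1,1],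
  [1,0,1,0,0,1,1,1,0,0,1], [1,1], [1,1,0,0,1,0], [1,1,0,0,1,0,0,0,1], [1,1,0,0,1,0,0,1,0,0,1],
  [1,1,0,0,1,1,0,1], [1,1,0,0,1,1,0,1,0,0,1], [1,1,0,0,1,1,1], [1,1,0,0,1,1,1,0,0,1]]

def TL : List (List Wd) :=
  [[[]], [[], [0,0,1,0], [0,0,1,0,0,0,1], [0,0,1,0,0,1,0,0,1], [0,0,1,1,0,1], [0,0,1,1,0,1,0,0,1],
  [0,0,1,1,1], [0,0,1,1,1,0,0,1], [0,1,0,0,1]], [[0,1], [0,1,0,0,1,0], [0,1,0,0,1,0,0,0,1],
  [0,1,0,0,1,0,0,1,0,0,1], [0,1,0,0,1,1,0,1], [0,1,0,0,1,1,0,1,0,0,1], [0,1,0,0,1,1,1],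
  [0,1,0,0,1,1,1,0,0,1], [1], [1,0,0,1,0], [1,0,0,1,0,0,0,1], [1,0,0,1,0,0,1,0,0,1], [1,0,0,1,1,0,1],
  [1,0,0,1,1,0,1,0,0,1], [1,0,0,1,1,1], [1,0,0,1,1,1,0,0,1]], [[], [0,0,1,0], [0,0,1,0,0,0,1],
  [0,0,1,0,0,1,0,0,1], [0,0,1,1,0,1], [0,0,1,1,0,1,0,0,1], [0,0,1,1,1], [0,0,1,1,1,0,0,1], [0,1,0],
  [0,1,0,0,0,1], [0,1,0,0,1], [0,1,0,0,1,0,0,1], [0,1,1,0,1], [0,1,1,0,1,0,0,1], [0,1,1,1],
  [0,1,1,1,0,0,1], [1,0,0,1]], [[1], [1,0,0,1,0], [1,0,0,1,0,0,0,1], [1,0,0,1,0,0,1,0,0,1],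
  [1,0,0,1,1,0,1], [1,0,0,1,1,0,1,0,0,1], [1,0,0,1,1,1], [1,0,0,1,1,1,0,0,1]], [[], [0,0,1,0],
  [0,0,1,0,0,0,1], [0,0,1,0,0,1,0,0,1], [0,0,1,1,0,1], [0,0,1,1,0,1,0,0,1], [0,0,1,1,1],
  [0,0,1,1,1,0,0,1]], [[], [0,0,1,0], [0,0,1,0,0,0,1], [0,0,1,0,0,1,0,0,1], [0,0,1,1,0,1],
  [0,0,1,1,0,1,0,0,1], [0,0,1,1,1], [0,0,1,1,1,0,0,1], [0,1,0], [0,1,0,0,0,1], [0,1,0,0,1],
  [0,1,0,0,1,0,0,1], [0,1,1,0,1], [0,1,1,0,1,0,0,1], [0,1,1,1], [0,1,1,1,0,0,1], [1,0], [1,0,0,0,1],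
  [1,0,0,1], [1,0,0,1,0,0,1], [1,1,0,1], [1,1,0,1,0,0,1], [1,1,1], [1,1,1,0,0,1]], [[0,0,1], [0,1],
  [0,1,0,0,1,0], [0,1,0,0,1,0,0,0,1], [0,1,0,0,1,0,0,1,0,0,1], [0,1,0,0,1,1,0,1],
  [0,1,0,0,1,1,0,1,0,0,1], [0,1,0,0,1,1,1], [0,1,0,0,1,1,1,0,0,1], [1], [1,0,0,1,0],
  [1,0,0,1,0,0,0,1], [1,0,0,1,0,0,1,0,0,1], [1,0,0,1,1,0,1], [1,0,0,1,1,0,1,0,0,1], [1,0,0,1,1,1],
  [1,0,0,1,1,1,0,0,1]], [], [[], [0,0,1,0], [0,0,1,0,0,0,1], [0,0,1,0,0,1,0,0,1], [0,0,1,1,0,1],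
  [0,0,1,1,0,1,0,0,1], [0,0,1,1,1], [0,0,1,1,1,0,0,1], [0,1,0], [0,1,0,0,0,1], [0,1,0,0,1],
  [0,1,0,0,1,0,0,1], [0,1,1,0,1], [0,1,1,0,1,0,0,1], [0,1,1,1], [0,1,1,1,0,0,1]], [[0], [0,0,0,1],
  [0,0,1], [0,0,1,0,0,1], [0,1], [0,1,0,0,1,0], [0,1,0,0,1,0,0,0,1], [0,1,0,0,1,0,0,1,0,0,1],
  [0,1,0,0,1,1,0,1], [0,1,0,0,1,1,0,1,0,0,1], [0,1,0,0,1,1,1], [0,1,0,0,1,1,1,0,0,1], [1],
  [1,0,0,1,0], [1,0,0,1,0,0,0,1], [1,0,0,1,0,0,1,0,0,1], [1,0,0,1,1,0,1], [1,0,0,1,1,0,1,0,0,1],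
  [1,0,0,1,1,1], [1,0,0,1,1,1,0,0,1], [1,0,1], [1,0,1,0,0,1], [1,1], [1,1,0,0,1]], [[0,1], [1],
  [1,0,0,1,0], [1,0,0,1,0,0,0,1], [1,0,0,1,0,0,1,0,0,1], [1,0,0,1,1,0,1], [1,0,0,1,1,0,1,0,0,1],
  [1,0,0,1,1,1], [1,0,0,1,1,1,0,0,1]], [[], [0,0,1], [0,1], [0,1,0,0,1], [1], [1,0,0,1,0],
  [1,0,0,1,0,0,0,1], [1,0,0,1,0,0,1,0,0,1], [1,0,0,1,1,0,1], [1,0,0,1,1,0,1,0,0,1], [1,0,0,1,1,1],
  [1,0,0,1,1,1,0,0,1]], [[], [0,0,1,0], [0,0,1,0,0,0,1], [0,0,1,0,0,1,0,0,1], [0,0,1,1,0,1],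
  [0,0,1,1,0,1,0,0,1], [0,0,1,1,1], [0,0,1,1,1,0,0,1], [0,1], [0,1,0,0,1], [1], [1,0,0,1]], [[1]],
  [[], [0,0,1,0], [0,0,1,0,0,0,1], [0,0,1,0,0,1,0,0,1], [0,0,1,1,0,1], [0,0,1,1,0,1,0,0,1],
  [0,0,1,1,1], [0,0,1,1,1,0,0,1], [0,1], [0,1,0,0,1,0], [0,1,0,0,1,0,0,0,1], [0,1,0,0,1,0,0,1,0,0,1],
  [0,1,0,0,1,1,0,1], [0,1,0,0,1,1,0,1,0,0,1], [0,1,0,0,1,1,1], [0,1,0,0,1,1,1,0,0,1], [1],
  [1,0,0,1,0], [1,0,0,1,0,0,0,1], [1,0,0,1,0,0,1,0,0,1], [1,0,0,1,1,0,1], [1,0,0,1,1,0,1,0,0,1],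
  [1,0,0,1,1,1], [1,0,0,1,1,1,0,0,1]], [[], [0,0,1,0], [0,0,1,0,0,0,1], [0,0,1,0,0,1,0,0,1],
  [0,0,1,1,0,1], [0,0,1,1,0,1,0,0,1], [0,0,1,1,1], [0,0,1,1,1,0,0,1], [0,1,0], [0,1,0,0,0,1],
  [0,1,0,0,1], [0,1,0,0,1,0,0,1], [0,1,1,0,1], [0,1,1,0,1,0,0,1], [0,1,1,1], [0,1,1,1,0,0,1], [1],
  [1,0,0,1]], [[], [0,0,1], [0,1], [0,1,0,0,1,0], [0,1,0,0,1,0,0,0,1], [0,1,0,0,1,0,0,1,0,0,1],
  [0,1,0,0,1,1,0,1], [0,1,0,0,1,1,0,1,0,0,1], [0,1,0,0,1,1,1], [0,1,0,0,1,1,1,0,0,1], [1],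
  [1,0,0,1,0], [1,0,0,1,0,0,0,1], [1,0,0,1,0,0,1,0,0,1], [1,0,0,1,1,0,1], [1,0,0,1,1,0,1,0,0,1],
  [1,0,0,1,1,1], [1,0,0,1,1,1,0,0,1]], [[], [0,0,1,0], [0,0,1,0,0,0,1], [0,0,1,0,0,1,0,0,1],
  [0,0,1,1,0,1], [0,0,1,1,0,1,0,0,1], [0,0,1,1,1], [0,0,1,1,1,0,0,1], [0,1,0], [0,1,0,0,0,1],
  [0,1,0,0,1], [0,1,0,0,1,0,0,1], [0,1,1,0,1], [0,1,1,0,1,0,0,1], [0,1,1,1], [0,1,1,1,0,0,1], [1],
  [1,0,0,1,0], [1,0,0,1,0,0,0,1], [1,0,0,1,0,0,1,0,0,1], [1,0,0,1,1,0,1], [1,0,0,1,1,0,1,0,0,1],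
  [1,0,0,1,1,1], [1,0,0,1,1,1,0,0,1]], [[], [0,0,1,0], [0,0,1,0,0,0,1], [0,0,1,0,0,1,0,0,1],
  [0,0,1,1,0,1], [0,0,1,1,0,1,0,0,1], [0,0,1,1,1], [0,0,1,1,1,0,0,1], [0,1], [0,1,0,0,1], [1],
  [1,0,0,1,0], [1,0,0,1,0,0,0,1], [1,0,0,1,0,0,1,0,0,1], [1,0,0,1,1,0,1], [1,0,0,1,1,0,1,0,0,1],
  [1,0,0,1,1,1], [1,0,0,1,1,1,0,0,1]]]

def DG : List Wd :=
  [[0,0,1], [0,0,1,0], [0,0,1,0,0,0,1], [0,0,1,0,0,1,0,0,1], [0,0,1,1,0,1], [0,0,1,1,0,1,0,0,1],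
  [0,0,1,1,1], [0,0,1,1,1,0,0,1], [0,1], [0,1,0], [0,1,0,0,0,1], [0,1,0,0,1], [0,1,0,0,1,0],
  [0,1,0,0,1,0,0,0,1], [0,1,0,0,1,0,0,1], [0,1,0,0,1,0,0,1,0,0,1], [0,1,0,0,1,1,0,1],
  [0,1,0,0,1,1,0,1,0,0,1], [0,1,0,0,1,1,1], [0,1,0,0,1,1,1,0,0,1], [0,1,1,0,1], [0,1,1,0,1,0,0,1],
  [0,1,1,1], [0,1,1,1,0,0,1], [1], [1,0], [1,0,0,0,1], [1,0,0,1], [1,0,0,1,0], [1,0,0,1,0,0,0,1],
  [1,0,0,1,0,0,1], [1,0,0,1,0,0,1,0,0,1], [1,0,0,1,1,0,1], [1,0,0,1,1,0,1,0,0,1], [1,0,0,1,1,1],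
  [1,0,0,1,1,1,0,0,1], [1,1,0,1], [1,1,0,1,0,0,1], [1,1,1], [1,1,1,0,0,1]]

def D (q : Fin 20) (a : Fin 2) : Fin 20 :=
  Fin.ofNat 20 ((779106155617606555292474387189490923077371859004811657677889 >>> (5 * (2 * q.val + a.val))) % 32)

def K (a : Fin 2) (c : Fin 19) : Fin 19 :=
  Fin.ofNat 19 ((16885184929868265157053984824845666771107951167347459137 >>> (5 * (2 * c.val + a.val))) % 32)

def M (q : Fin 20) (c : Fin 19) : Bool :=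
  Nat.testBit 1044629329632099379533902084960944040364214718390789659519277517169661408293469608243076305905758710609404031926275 (19 * q.val + c.val)

def NS (q : Fin 20) (c : Fin 19) : Bool :=
  Nat.testBit 1221685999233554600111120366463692724001028999104370343434146012217697954481934870890441723742035492869507824746496 (19 * q.val + c.val)

def run (q : Fin 20) (w : Wd) : Fin 20 := w.foldl D q

def col (v : Wd) : Fin 19 := v.foldr K 0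

def T (q : Fin 20) : List Wd := TL.getD q.val []

def words : ℕ → List Wd
  | 0 => [[]]
  | n + 1 => [] :: (words n).flatMap fun w => [0 :: w, 1 :: w]

def St (w : Wd) : Prop := ∃ xs : List Wd, (∀ x ∈ xs, x ∈ {x | x ∈ XL}) ∧ xs.flatten = w

theorem run_append (q : Fin 20) (u v : Wd) : run q (u ++ v) = run (run q u) v := List.foldl_append

theorem M_col (v : Wd) : ∀ q, M q (col v) = M (run q v) 0 := by
  have h : ∀ q a c, M q (K a c) = M (D q a) c := by decide +kernel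
  induction v with
  | nil => intro q; rfl
  | cons a v ih => intro q; exact (h q a (col v)).trans (ih _)

theorem St.snoc {u x : Wd} (h : St u) (hx : x ∈ XL) : St (u ++ x) := by
  obtain ⟨xs, h1, rfl⟩ := h
  refine ⟨xs ++ [x], fun y hy => ?_, by simp⟩
  rcases List.mem_append.1 hy with h | h
  · exact h1 y h
  · rw [List.mem_singleton.1 h]; exact hx

theorem inv (u : Wd) : ∀ t ∈ T (run 0 u), St (u ++ t) := by
  have h : ∀ q a, ∀ t ∈ T (D q a), a :: t ∈ T q ∨ ∃ s ∈ T q, ∃ x ∈ XL, a :: t = s ++ x := by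
    decide +kernel
  induction u using List.reverseRecOn with
  | nil =>
    intro t ht
    have : t = [] := by simpa [T, TL, run] using ht
    exact ⟨[], by simp, by simp [this]⟩
  | append_singleton u a ih =>
    intro t ht
    rw [run_append] at ht
    rw [List.append_assoc, List.singleton_append]
    rcases h _ a t ht with h1 | ⟨s, h1, x, hx, e⟩
    · exact ih _ h1
    · rw [e, ← List.append_assoc]; exact (ih _ h1).snoc hx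

theorem st_iff (w : Wd) : St w ↔ M (run 0 w) 0 = true := by
  constructor
  · rintro ⟨xs, h, rfl⟩
    have h1 : ∀ q, M q 0 = true → ∀ x ∈ XL, M (run q x) 0 = true := by decide +kernel
    induction xs using List.reverseRecOn with
    | nil => decide +kernel
    | append_singleton xs x ih =>
      rw [List.flatten_append, List.flatten_singleton, run_append]
      exact h1 _ (ih fun y hy => h y (by simp [hy])) x (h x (by simp))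
  · intro h
    have h1 : ∀ q, M q 0 = true → [] ∈ T q := by decide +kernel
    simpa using inv w [] (h1 _ h)

theorem st3 (u w v : Wd) : St (u ++ w ++ v) ↔ M (run (run 0 u) w) (col v) = true := by
  rw [st_iff, run_append, run_append, M_col]

theorem dangling (n : ℕ) : ∀ d ∈ DG, ∀ L L' : List Wd, (∀ x ∈ L, x ∈ XL) → (∀ x ∈ L', x ∈ XL) →
    d ++ L.flatten = L'.flatten → L'.flatten.length + L.flatten.length < n → False := by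
  have h1 : ∀ d ∈ DG, ∀ x ∈ XL, (d <+: x → x.drop d.length ∈ DG) ∧
      (x <+: d → d.drop x.length ∈ DG) := by decide +kernel
  have h2 : ∀ d ∈ DG, d ≠ [] := by decide +kernel
  have h3 : ∀ d ∈ XL, d ≠ [] := by decide +kernel
  induction n with
  | zero => intro _ _ _ _ _ _ _ h; omega
  | succ n ih =>
    intro d hd L L' hL hL' e hn
    cases L' with
    | nil => exact h2 d hd (List.append_eq_nil_iff.1 e).1
    | cons x L' =>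
      have hx := hL' x (by simp)
      have hL'' : ∀ y ∈ L', y ∈ XL := fun y hy => hL' y (by simp [hy])
      rw [List.flatten_cons] at e hn
      have l1 := List.length_pos_iff.2 (h2 d hd)
      have l2 := List.length_pos_iff.2 (h3 x hx)
      rw [List.length_append] at hn
      rcases List.append_eq_append_iff.1 e with ⟨s, rfl, e2⟩ | ⟨s, rfl, e2⟩
      · have := (h1 d hd _ hx).1 (List.prefix_append _ _)
        rw [List.drop_left] at this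
        exact ih s this L' L hL'' hL e2.symm (by omega)
      · have := (h1 _ hd x hx).2 (List.prefix_append _ _)
        rw [List.drop_left] at this
        exact ih s this L L' hL hL'' e2.symm (by omega)

theorem code (L : List Wd) : ∀ L' : List Wd, (∀ x ∈ L, x ∈ XL) → (∀ x ∈ L', x ∈ XL) →
    L.flatten = L'.flatten → L = L' := by
  have h1 : ∀ x ∈ XL, ∀ y ∈ XL, x <+: y → x = y ∨ y.drop x.length ∈ DG := by decide +kernel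
  have h3 : ∀ d ∈ XL, d ≠ [] := by decide +kernel
  induction L with
  | nil =>
    intro L' _ h e
    cases L' with
    | nil => rfl
    | cons x L' => exact absurd (List.append_eq_nil_iff.1 e.symm).1 (h3 x (h x (by simp)))
  | cons x L ih =>
    intro L' h h' e
    cases L' with
    | nil => exact absurd (List.append_eq_nil_iff.1 e).1 (h3 x (h x (by simp)))
    | cons y L' =>
      have hx := h x (by simp)
      have hy := h' y (by simp)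
      have hL : ∀ y ∈ L, y ∈ XL := fun y hy => h y (by simp [hy])
      have hL' : ∀ y ∈ L', y ∈ XL := fun y hy => h' y (by simp [hy])
      rw [List.flatten_cons, List.flatten_cons] at e
      have : x = y := by
        rcases List.append_eq_append_iff.1 e with ⟨s, rfl, e2⟩ | ⟨s, rfl, e2⟩
        · rcases h1 x hx _ hy (List.prefix_append _ _) with h | h
          · exact h
          · rw [List.drop_left] at h
            exact (dangling _ s h L' L hL' hL e2.symm (Nat.lt_succ_self _)).elim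
        · rcases h1 y hy _ hx (List.prefix_append _ _) with h | h
          · exact h.symm
          · rw [List.drop_left] at h
            exact (dangling _ s h L L' hL hL' e2.symm (Nat.lt_succ_self _)).elim
      subst this
      rw [ih L' hL hL' (List.append_cancel_left e)]

theorem ns_spec : ∀ q c, NS q c = true → ∃ w ∈ words 5, M (run q w) c = true ∧
    ∀ i ≤ 5, ¬ (M (run q (w.take i)) 0 = true ∧ M (run 0 (w.drop i)) c = true) := by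
  decide +kernel

theorem len_words (n : ℕ) : ∀ w ∈ words n, w.length ≤ n := by
  induction n with
  | zero => simp [words]
  | succ n ih =>
    intro w hw
    simp only [words, List.mem_cons, List.mem_flatMap, List.not_mem_nil, or_false] at hw
    rcases hw with rfl | ⟨v, hv, rfl | rfl⟩
    · simp
    · simpa using ih v hv
    · simpa using ih v hv

def Dup (q0 q : Fin 20) (c0 c : Fin 19) : Prop :=
  ∃ z ∈ words 5, ∃ p ∈ [q0, q], ∃ d ∈ [c0, c], ∃ p' ∈ [q0, q], ∃ d' ∈ [c0, c],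
    M (run p z) d = true ∧ M (run p' z) d' = true ∧ ¬ (p = p' ∧ d = d')

instance (q0 q : Fin 20) (c0 c : Fin 19) : Decidable (Dup q0 q c0 c) := by
  unfold Dup; infer_instance

theorem search : ∀ q0 c0, M q0 c0 = true → NS q0 c0 = true ∨
    ∃ w ∈ ([[1], [0, 1], [0, 0, 1], [0, 0, 0, 1], [1, 0, 0, 1]] : List Wd), ∀ q c,
      M (run q w) c = true → NS q c = true ∨ NS q0 c = true ∨ NS q c0 = true ∨ Dup q0 q c0 c := by
  decide +kernel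

theorem nobox (U V : Finset Wd)
    (h1 : ∀ w : Wd, ∃! p : Wd × Wd, p.1 ∈ U ∧ p.2 ∈ V ∧ St (p.1 ++ w ++ p.2))
    (h2 : ∀ u ∈ U, ∀ v ∈ V, ∀ w : Wd, St (u ++ w ++ v) →
      ∃ w' w'' : Wd, w = w' ++ w'' ∧ St (u ++ w') ∧ St (w'' ++ v)) : False := by
  have hS : ∀ u ∈ U, ∀ v ∈ V, NS (run 0 u) (col v) = true → False := by
    intro u hu v hv h
    obtain ⟨w, hw, e, hn⟩ := ns_spec _ _ h
    obtain ⟨w', w'', rfl, a1, a2⟩ := h2 u hu v hv w ((st3 _ _ _).2 e)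
    have := len_words 5 _ hw
    rw [List.length_append] at this
    refine hn w'.length (by omega) ?_
    rw [List.take_left, List.drop_left]
    rw [st_iff, run_append] at a1
    rw [st_iff, run_append, ← M_col] at a2
    exact ⟨a1, a2⟩
  obtain ⟨⟨u0, v0⟩, ⟨hu0, hv0, e0⟩, -⟩ := h1 []
  rcases search _ _ ((st3 _ _ _).1 e0) with h | ⟨w, -, h⟩
  · exact hS _ hu0 _ hv0 h
  obtain ⟨⟨u, v⟩, ⟨hu, hv, e⟩, -⟩ := h1 w
  rcases h _ _ ((st3 _ _ _).1 e) with h | h | h | ⟨z, -, p, hp, d, hd, p', hp', d', hd', a1, a2, a3⟩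
  · exact hS _ hu _ hv h
  · exact hS _ hu0 _ hv h
  · exact hS _ hu _ hv0 h
  have k1 : ∀ p ∈ [run 0 u0, run 0 u], ∃ x ∈ U, p = run 0 x := by
    intro p hp
    rcases List.mem_pair.1 hp with rfl | rfl
    exacts [⟨_, hu0, rfl⟩, ⟨_, hu, rfl⟩]
  have k2 : ∀ d ∈ [col v0, col v], ∃ x ∈ V, d = col x := by
    intro p hp
    rcases List.mem_pair.1 hp with rfl | rfl
    exacts [⟨_, hv0, rfl⟩, ⟨_, hv, rfl⟩]
  obtain ⟨x, hx, rfl⟩ := k1 p hp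
  obtain ⟨x', hx', rfl⟩ := k1 p' hp'
  obtain ⟨y, hy, rfl⟩ := k2 d hd
  obtain ⟨y', hy', rfl⟩ := k2 d' hd'
  have := (h1 z).unique (y₁ := (x, y)) (y₂ := (x', y')) ⟨hx, hy, (st3 _ _ _).2 a1⟩
    ⟨hx', hy', (st3 _ _ _).2 a2⟩
  obtain ⟨rfl, rfl⟩ := Prod.mk.inj this
  exact a3 ⟨rfl, rfl⟩

theorem maximal (Y : Set Wd) (hXY : {x | x ∈ XL} ⊆ Y)
    (hY : ∀ xs ys : List Wd, (∀ x ∈ xs, x ∈ Y) → (∀ y ∈ ys, y ∈ Y) →
      xs.flatten = ys.flatten → xs = ys) : Y = {x | x ∈ XL} := by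
  refine Set.Subset.antisymm (fun w hw => ?_) hXY
  by_contra hn
  have hn' : w ∉ XL.toFinset := by simpa using hn
  have k : ∀ c ∈ ((insert w XL.toFinset : Finset Wd) : Set Wd), c ∈ Y := fun c hc => by
    rcases Finset.mem_insert.1 hc with rfl | h
    · exact hw
    · exact hXY (List.mem_toFinset.1 h)
  have := InformationTheory.kraft_mcmillan_inequality (S := insert w XL.toFinset)
    (fun L L' h1 h2 e => hY L L' (fun c hc => k c (h1 c hc)) (fun c hc => k c (h2 c hc)) e)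
  rw [Finset.sum_insert hn'] at this
  have h1 : ∑ x ∈ XL.toFinset, (1 / (Fintype.card (Fin 2) : ℝ)) ^ x.length = 1 := by
    have h2 : ∑ x ∈ XL.toFinset, (1 / 2 : ℚ) ^ x.length = 1 := by decide +kernel
    have h3 := congrArg (Rat.cast : ℚ → ℝ) h2
    push_cast at h3
    simpa using h3
  have h4 : 0 < (1 / (Fintype.card (Fin 2) : ℝ)) ^ w.length := by simp
  linarith

end Pool.Agent.H.MP_bd622f_lc
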